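import Pool.Agent.Helper61.QE.St5

/-! # Project QD, part E: dictionary between the two notions of Fuchsian groups (FUC) -/

open MeasureTheory Set Filter Topology Complex
open scoped ContDiff ComplexConjugate ENNReal

namespace Pool.Agent.Helper41.QE

open Pool.Agent.Helper68.QC Pool.Agent.Helper61.QE
open Pool.Agent.Helper35.PM (hs IsDiscrete)

private theorem fucHs (A : SL) (hA : SU A) :
    hs (A : Matrix (Fin 2) (Fin 2) ℂ) = 2 * ‖A 0 0‖ ^ 2 + 2 * ‖A 0 1‖ ^ 2 := by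
  have h1 : ‖A 1 1‖ = ‖A 0 0‖ := by rw [hA.1, Complex.norm_conj]
  have h2 : ‖A 1 0‖ = ‖A 0 1‖ := by rw [hA.2, Complex.norm_conj]
  unfold hs
  rw [Fin.sum_univ_two, Fin.sum_univ_two, Fin.sum_univ_two]
  have h1' : ‖(A : Matrix (Fin 2) (Fin 2) ℂ) 1 1‖ = ‖(A : Matrix (Fin 2) (Fin 2) ℂ) 0 0‖ := h1
  have h2' : ‖(A : Matrix (Fin 2) (Fin 2) ℂ) 1 0‖ = ‖(A : Matrix (Fin 2) (Fin 2) ℂ) 0 1‖ := h2
  show ‖(A : Matrix (Fin 2) (Fin 2) ℂ) 0 0‖ ^ 2 + ‖(A : Matrix (Fin 2) (Fin 2) ℂ) 0 1‖ ^ 2 +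
    (‖(A : Matrix (Fin 2) (Fin 2) ℂ) 1 0‖ ^ 2 + ‖(A : Matrix (Fin 2) (Fin 2) ℂ) 1 1‖ ^ 2) =
    2 * ‖(A : Matrix (Fin 2) (Fin 2) ℂ) 0 0‖ ^ 2 + 2 * ‖(A : Matrix (Fin 2) (Fin 2) ℂ) 0 1‖ ^ 2
  rw [h1', h2']
  ring

private theorem fucDet (A : SL) (hA : SU A) : ‖A 0 0‖ ^ 2 = 1 + ‖A 0 1‖ ^ 2 := by
  have h := A.det_coe
  rw [Matrix.det_fin_two] at h
  have h1 : A 0 0 * A 1 1 - A 0 1 * A 1 0 = 1 := h
  rw [hA.1, hA.2, Complex.mul_conj, Complex.mul_conj, Complex.normSq_eq_norm_sq,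
    Complex.normSq_eq_norm_sq] at h1
  have h2 : ‖A 0 0‖ ^ 2 - ‖A 0 1‖ ^ 2 = 1 := by exact_mod_cast h1
  linarith

private theorem fucMob0 (A : SL) (hA : SU A) : ‖mob A 0‖ * ‖A 0 0‖ = ‖A 0 1‖ := by
  have h0 : ‖A 0 0‖ ≠ 0 := by
    intro h
    have := fucDet A hA
    rw [h] at this
    nlinarith [sq_nonneg ‖A 0 1‖]
  unfold mob den
  rw [mul_zero, mul_zero, zero_add, zero_add, norm_div, hA.1, Complex.norm_conj,
    div_mul_cancel₀ _ h0]

/-- The fixed point of an elliptic element. -/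
private theorem fucFix (a b : ℂ) (h : ‖a‖ ^ 2 = 1 + ‖b‖ ^ 2) (hr : a.re ^ 2 < 1) :
    ∃ z : ℂ, ‖z‖ < 1 ∧ a * z + b = z * (conj b * z + conj a) := by
  by_cases hb : b = 0
  · exact ⟨0, by simp, by rw [hb]; simp⟩
  have hb' : 0 < ‖b‖ := norm_pos_iff.2 hb
  have hcb : conj b ≠ 0 := by
    intro h0
    apply hb
    have := congrArg conj h0
    rwa [Complex.conj_conj, map_zero] at this
  have hn : ‖a‖ ^ 2 = a.re ^ 2 + a.im ^ 2 := by
    rw [← Complex.normSq_eq_norm_sq, Complex.normSq_apply]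
    ring
  have hD : 0 < a.im ^ 2 - ‖b‖ ^ 2 := by nlinarith
  obtain ⟨r, hr0, hr2⟩ : ∃ r : ℝ, 0 < r ∧ r ^ 2 = a.im ^ 2 - ‖b‖ ^ 2 :=
    ⟨Real.sqrt (a.im ^ 2 - ‖b‖ ^ 2), Real.sqrt_pos.2 hD, Real.sq_sqrt hD.le⟩
  obtain ⟨κ, hκ1, hκ2⟩ : ∃ κ : ℝ, κ ^ 2 - 2 * a.im * κ + ‖b‖ ^ 2 = 0 ∧ κ ^ 2 < ‖b‖ ^ 2 := by
    rcases le_total 0 a.im with hy | hy
    · have h1 : r < a.im := by nlinarith
      refine ⟨a.im - r, by nlinarith, by nlinarith⟩
    · have h1 : r < -a.im := by nlinarith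
      refine ⟨a.im + r, by nlinarith, by nlinarith⟩
  refine ⟨I * κ / conj b, ?_, ?_⟩
  · rw [norm_div, norm_mul, Complex.norm_I, one_mul, Complex.norm_real, Complex.norm_conj,
      div_lt_one hb', Real.norm_eq_abs]
    exact abs_lt_of_sq_lt_sq hκ2 hb'.le
  · have hbb : b * conj b = ((‖b‖ ^ 2 : ℝ) : ℂ) := by
      rw [Complex.mul_conj, Complex.normSq_eq_norm_sq]
    have hκ3 : (κ : ℂ) ^ 2 - 2 * (a.im : ℂ) * κ + b * conj b = 0 := by
      rw [hbb]
      exact_mod_cast hκ1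
    have haa : a - conj a = 2 * (a.im : ℂ) * I := by
      apply Complex.ext <;> simp
      ring
    have e1 : conj b * (I * κ / conj b) = I * κ := by field_simp
    rw [e1]
    have e2 : (a * (I * κ / conj b) + b) - (I * κ / conj b) * (I * κ + conj a) =
        ((κ : ℂ) ^ 2 - 2 * (a.im : ℂ) * κ + b * conj b) / conj b := by
      have : (a * (I * κ / conj b) + b) - (I * κ / conj b) * (I * κ + conj a) =
          ((a - conj a) * I * κ - I ^ 2 * κ ^ 2 + b * conj b) / conj b := by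
        field_simp
        ring
      rw [this, haa, Complex.I_sq]
      congr 1
      have : 2 * (a.im : ℂ) * I * I * κ = 2 * (a.im : ℂ) * (I ^ 2) * κ := by ring
      rw [this, Complex.I_sq]
      ring
    have e3 := hκ3
    rw [← sub_eq_zero, e2, e3, zero_div]

/-- Powers of a non elliptic element. -/
private theorem fucPow (A : SL) (hA : SU A) (hb : A 0 1 ≠ 0) (hr : 1 ≤ (A 0 0).re ^ 2) (n : ℕ)
    (hn : 1 ≤ n) : A ^ n ≠ 1 := by
  set t : ℝ := 2 * (A 0 0).re with ht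
  have ht2 : 2 ≤ |t| := by
    rw [ht, abs_mul, abs_two]
    have : 1 ≤ |(A 0 0).re| := by
      rw [← one_le_sq_iff_one_le_abs]
      exact hr
    linarith
  have htr : A 0 0 + A 1 1 = (t : ℂ) := by
    rw [hA.1, Complex.add_conj, ht]
  have hdet : A 0 0 * A 1 1 - A 0 1 * A 1 0 = 1 := by
    have h := A.det_coe
    rw [Matrix.det_fin_two] at h
    exact h
  have hrec : ∀ m : ℕ, (A ^ (m + 2)) 0 1 = (t : ℂ) * (A ^ (m + 1)) 0 1 - (A ^ m) 0 1 := by
    intro m
    have h1 : ∀ B : SL, (B * A) 0 1 = B 0 0 * A 0 1 + B 0 1 * A 1 1 := by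
      intro B
      show ((B * A : SL) : Matrix (Fin 2) (Fin 2) ℂ) 0 1 = _
      rw [Matrix.SpecialLinearGroup.coe_mul, Matrix.mul_apply, Fin.sum_univ_two]
    have h0 : ∀ B : SL, (B * A) 0 0 = B 0 0 * A 0 0 + B 0 1 * A 1 0 := by
      intro B
      show ((B * A : SL) : Matrix (Fin 2) (Fin 2) ℂ) 0 0 = _
      rw [Matrix.SpecialLinearGroup.coe_mul, Matrix.mul_apply, Fin.sum_univ_two]
    rw [pow_succ A (m + 1), pow_succ A m, h1, h1, h0, ← htr]
    linear_combination (-(A ^ m) 0 1) * hdet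
  have key : ∀ m : ℕ, ∃ u v : ℝ, (A ^ m) 0 1 = (u : ℂ) * A 0 1 ∧
      (A ^ (m + 1)) 0 1 = (v : ℂ) * A 0 1 ∧ |u| + 1 ≤ |v| := by
    intro m
    induction m with
    | zero =>
      refine ⟨0, 1, ?_, ?_, by simp⟩
      · rw [pow_zero]
        simp
      · rw [zero_add, pow_one]
        simp
    | succ m ih =>
      obtain ⟨u, v, hu, hv, huv⟩ := ih
      refine ⟨v, t * v - u, hv, ?_, ?_⟩
      · rw [hrec m, hu, hv]
        push_cast
        ring
      · have h1 : |t * v| ≤ |t * v - u| + |u| := by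
          calc |t * v| = |(t * v - u) + u| := by rw [sub_add_cancel]
            _ ≤ |t * v - u| + |u| := abs_add_le _ _
        rw [abs_mul] at h1
        have h2 : 2 * |v| ≤ |t| * |v| := mul_le_mul_of_nonneg_right ht2 (abs_nonneg v)
        linarith
  intro hone
  obtain ⟨m, rfl⟩ : ∃ m, n = m + 1 := ⟨n - 1, by omega⟩
  obtain ⟨u, v, -, hv, huv⟩ := key m
  rw [hone] at hv
  have h1 : ((1 : SL) 0 1 : ℂ) = 0 := by simp
  rw [h1] at hv
  rcases mul_eq_zero.1 hv.symm with h2 | h2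
  · have h3 : v = 0 := by exact_mod_cast h2
    rw [h3, abs_zero] at huv
    linarith [abs_nonneg u]
  · exact hb h2

theorem pFUC (hSUB : StSUB) : StFUC := by
  intro Γ _ s
  obtain ⟨hcomp, -, -, hden, hnorm, -, -, -, -, -⟩ := hSUB
  have hone : ∀ z : ℂ, mob (1 : SL) z = z := by
    intro z
    unfold mob den
    simp
  refine ⟨?_, ?_⟩
  · intro hF htf
    have hsu : ∀ γ, SU (s γ) := fun γ => hF.su γ
    refine ⟨hsu, ?_, ?_, hF.cocompact⟩
    · intro r hr
      refine (hF.discrete (4 / (1 - max r 0 ^ 2))).subset ?_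
      intro γ hγ
      have hγ' : ‖mob (s γ) 0‖ ≤ max r 0 := le_trans hγ (le_max_left _ _)
      have hm0 : 0 ≤ max r 0 := le_max_right _ _
      have hm1 : max r 0 < 1 := max_lt hr one_pos
      show hs (s γ : Matrix (Fin 2) (Fin 2) ℂ) ≤ _
      rw [fucHs (s γ) (hsu γ)]
      have h1 := fucDet (s γ) (hsu γ)
      have h2 := fucMob0 (s γ) (hsu γ)
      have h3 : ‖(s γ) 0 1‖ ≤ max r 0 * ‖(s γ) 0 0‖ := by
        rw [← h2]
        exact mul_le_mul_of_nonneg_right hγ' (norm_nonneg _)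
      have h4 : ‖(s γ) 0 1‖ ^ 2 ≤ (max r 0 * ‖(s γ) 0 0‖) ^ 2 :=
        pow_le_pow_left₀ (norm_nonneg _) h3 2
      have h5 : 0 < 1 - max r 0 ^ 2 := by nlinarith
      rw [le_div_iff₀ h5]
      rw [mul_pow] at h4
      nlinarith [sq_nonneg ‖(s γ) 0 1‖, sq_nonneg (max r 0)]
    · intro γ hγ z hz hfix
      have hz' : ‖z‖ < 1 := mem_ball_zero_iff.1 hz
      have hpw : ∀ n : ℕ, mob (s (γ ^ n)) z = z := by
        intro n
        induction n with
        | zero => rw [pow_zero, map_one]; exact hone z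
        | succ n ih =>
          rw [pow_succ, map_mul, (hcomp (s (γ ^ n)) (s γ) z (hden _ (hsu γ) z hz'.le)).2, hfix, ih]
      have hinj : Function.Injective (fun n : ℕ => γ ^ n) := by
        intro m n hmn
        by_contra hne
        have hmn' : γ ^ m = γ ^ n := hmn
        rcases Nat.lt_or_gt_of_ne hne with h | h
        · apply hγ
          apply htf γ (n - m) (by omega)
          have h1 : γ ^ m * γ ^ (n - m) = γ ^ m * 1 := by
            rw [← pow_add, mul_one, hmn']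
            congr 1
            omega
          exact mul_left_cancel h1
        · apply hγ
          apply htf γ (m - n) (by omega)
          have h1 : γ ^ n * γ ^ (m - n) = γ ^ n * 1 := by
            rw [← pow_add, mul_one, ← hmn']
            congr 1
            omega
          exact mul_left_cancel h1
      have hfin : (range (fun n : ℕ => γ ^ n)).Finite := by
        refine (hF.discrete (4 / (1 - ‖z‖) ^ 2)).subset ?_
        rintro _ ⟨n, rfl⟩
        show hs (s (γ ^ n) : Matrix (Fin 2) (Fin 2) ℂ) ≤ _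
        obtain ⟨A, hA⟩ : ∃ A, A = s (γ ^ n) := ⟨_, rfl⟩
        have hAs : SU A := by rw [hA]; exact hsu _
        have hAz : mob A z = z := by rw [hA]; exact hpw n
        rw [← hA, fucHs A hAs]
        have h1 := fucDet A hAs
        have h2 := hnorm A hAs z (hden A hAs z hz'.le)
        rw [hAz] at h2
        have h3 : 0 < 1 - ‖z‖ ^ 2 := by nlinarith [norm_nonneg z]
        have h4 : ‖den A z‖ ^ 2 = 1 := by
          have : (1 - ‖z‖ ^ 2) * (‖den A z‖ ^ 2 - 1) = 0 := by linarith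
          rcases mul_eq_zero.1 this with h | h
          · exact absurd h h3.ne'
          · linarith
        have h5 : ‖den A z‖ = 1 := by
          have h6 : (‖den A z‖ - 1) * (‖den A z‖ + 1) = 0 := by linarith
          rcases mul_eq_zero.1 h6 with h | h
          · linarith
          · linarith [norm_nonneg (den A z)]
        have h7 : ‖A 0 0‖ - ‖A 0 1‖ * ‖z‖ ≤ ‖den A z‖ := by
          unfold den
          have e1 : ‖A 1 1‖ = ‖A 0 0‖ := by rw [hAs.1, Complex.norm_conj]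
          have e2 : ‖A 1 0 * z‖ = ‖A 0 1‖ * ‖z‖ := by rw [norm_mul, hAs.2, Complex.norm_conj]
          rw [← e1, ← e2]
          have := norm_sub_le (A 1 0 * z + A 1 1) (A 1 0 * z)
          rw [add_sub_cancel_left] at this
          linarith
        have h8 : ‖A 0 1‖ ≤ ‖A 0 0‖ := by
          apply le_of_sq_le_sq _ (norm_nonneg _)
          linarith
        have h9 : ‖A 0 0‖ * (1 - ‖z‖) ≤ 1 := by
          have : ‖A 0 1‖ * ‖z‖ ≤ ‖A 0 0‖ * ‖z‖ :=
            mul_le_mul_of_nonneg_right h8 (norm_nonneg z)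
          nlinarith
        have h10 : 0 < 1 - ‖z‖ := by linarith
        rw [le_div_iff₀ (by positivity)]
        have h11 : (‖A 0 0‖ * (1 - ‖z‖)) ^ 2 ≤ 1 ^ 2 :=
          pow_le_pow_left₀ (mul_nonneg (norm_nonneg _) h10.le) h9 2
        rw [mul_pow] at h11
        nlinarith [sq_nonneg ‖A 0 1‖, sq_nonneg (1 - ‖z‖)]
      exact (Set.infinite_range_of_injective hinj) hfin
  · intro hF
    refine ⟨⟨⟨fun γ => hF.su γ, ?_, hF.coc⟩, ?_⟩, ?_⟩
    · intro X
      obtain ⟨Y, hY⟩ : ∃ Y, Y = |X| + 2 := ⟨_, rfl⟩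
      have hY0 : 0 < Y := by rw [hY]; positivity
      have hr1 : Real.sqrt (1 - 4 / Y) < 1 := by
        rw [Real.sqrt_lt' one_pos]
        have : 0 < 4 / Y := by positivity
        linarith
      refine (hF.disc _ hr1).subset ?_
      intro γ hγ
      have hγ' : hs (s γ : Matrix (Fin 2) (Fin 2) ℂ) ≤ X := hγ
      rw [fucHs (s γ) (hF.su γ)] at hγ'
      show ‖mob (s γ) 0‖ ≤ _
      have h1 := fucDet (s γ) (hF.su γ)
      have h2 := fucMob0 (s γ) (hF.su γ)
      apply Real.le_sqrt_of_sq_le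
      have h3 : 4 * ‖(s γ) 0 0‖ ^ 2 ≤ Y := by
        rw [hY]
        linarith [le_abs_self X]
      have h4 : 0 < ‖(s γ) 0 0‖ ^ 2 := by nlinarith [sq_nonneg ‖(s γ) 0 1‖]
      have h5 : ‖mob (s γ) 0‖ ^ 2 * ‖(s γ) 0 0‖ ^ 2 = ‖(s γ) 0 0‖ ^ 2 - 1 := by
        rw [← mul_pow, h2]
        linarith
      have h6 : ‖mob (s γ) 0‖ ^ 2 = 1 - 1 / ‖(s γ) 0 0‖ ^ 2 := by
        have h61 : ‖mob (s γ) 0‖ ^ 2 = (‖(s γ) 0 0‖ ^ 2 - 1) / ‖(s γ) 0 0‖ ^ 2 :=
          (eq_div_iff h4.ne').2 h5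
        rw [h61, sub_div, div_self h4.ne']
      rw [h6]
      have h7 : 4 / Y ≤ 1 / ‖(s γ) 0 0‖ ^ 2 := by
        rw [div_le_div_iff₀ hY0 h4]
        linarith
      linarith
    · intro γ n hn hγn
      by_contra hγ
      have hA := hF.su γ
      have hfree : ∀ z ∈ D, mob (s γ) z ≠ z := hF.free γ hγ
      have hb : s γ 0 1 ≠ 0 := by
        intro h0
        apply hfree 0 (by simp)
        unfold mob
        rw [h0]
        simp
      have hr : 1 ≤ (s γ 0 0).re ^ 2 := by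
        by_contra hlt
        push Not at hlt
        obtain ⟨z, hz, hz2⟩ := fucFix (s γ 0 0) (s γ 0 1) (fucDet (s γ) hA) hlt
        apply hfree z (mem_ball_zero_iff.2 hz)
        have hd := hden (s γ) hA z hz.le
        unfold mob
        rw [div_eq_iff hd, hz2]
        unfold den
        rw [hA.1, hA.2]
      apply fucPow (s γ) hA hb hr n hn
      rw [← map_pow, hγn, map_one]
    · intro F hFD
      obtain ⟨r, hr, hFr⟩ := hFD.cpt
      have hsub : F ⊆ Metric.ball (0 : ℂ) 1 := fun z hz =>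
        mem_ball_zero_iff.2 ((hFr z hz).trans_lt hr)
      refine ⟨hFD.meas, hsub, ?_⟩
      intro x hx
      obtain ⟨γ, hγ⟩ := hFD.cov x hx
      have hx' : ‖x‖ < 1 := mem_ball_zero_iff.1 hx
      refine ⟨γ, hγ, ?_⟩
      intro δ hδ
      have hδ' : mob (s δ) x ∈ F := hδ
      have h1 : mob (s (δ * γ⁻¹)) (mob (s γ) x) ∈ F := by
        have h2 := (hcomp (s (δ * γ⁻¹)) (s γ) x (hden _ (hF.su γ) x hx'.le)).2
        rw [← map_mul, inv_mul_cancel_right] at h2
        rw [← h2]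
        exact hδ'
      exact mul_inv_eq_one.1 (hFD.uni _ hγ _ h1)

end Pool.Agent.Helper41.QE
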