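import Pool.Agent.Helper61.QE.St3
import Pool.Agent.Helper71.TU.X5aux

/-! # Project QD, part E: two points of the concentration set (SS2) -/

open MeasureTheory Set Filter Topology Complex
open scoped ContDiff ComplexConjugate ENNReal

namespace Pool.Agent.Helper41.QE

open Pool.Agent.Helper68.QC Pool.Agent.Helper61.QE

/-- The equivariance of `P/(1 - x P)`, algebra. -/
theorem ss2Alg (a b c d x p : ℂ) (hdet : a * d - b * c = 1) (hfix : a * x + b = x * (c * x + d))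
    (hq : b * p + a ≠ 0) (hr : 1 - x * p ≠ 0) :
    (d * p + c) / (b * p + a) / (1 - x * ((d * p + c) / (b * p + a))) =
      (d + c * x) / (a - c * x) * (p / (1 - x * p)) + c / (a - c * x) := by
  have hw : a - c * x ≠ 0 := by
    intro h
    have : (d + c * x) * (a - c * x) = 1 := by linear_combination hdet + c * hfix
    rw [h, mul_zero] at this
    exact zero_ne_one this
  have h1 : 1 - x * ((d * p + c) / (b * p + a)) =
      (a - c * x) * (1 - x * p) / (b * p + a) := by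
    rw [eq_div_iff hq, sub_mul, one_mul, mul_assoc, div_mul_cancel₀ _ hq]
    linear_combination p * hfix
  rw [h1, div_div_eq_mul_div, div_mul_cancel₀ _ hq, div_mul_div_comm,
    div_add_div _ _ (mul_ne_zero hw hr) hw,
    div_eq_div_iff (mul_ne_zero hw hr) (mul_ne_zero (mul_ne_zero hw hr) hw)]
  ring

theorem pSS2 (_hSUB : StSUB) (hFUX : StFUX) (hSNE : StSNE) (hSNX : StSNX) (hEQP : StEQP)
    (hSIN : StSIN) (hNGF : StNGF) : StSS2 := by
  intro Γ _ s F h t0 G N R R' U P ν Ri Ri' hFu hFD ht hSq hLm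
  by_contra hcon
  push Not at hcon
  obtain ⟨x, hx⟩ := (hSNE U G hSq.gd).1
  have hne : ∀ u ∈ D, 1 - x * P u ≠ 0 := by
    intro u hu h0
    exact hSNX U G P hSq.gd hLm.phol hLm.pinj hLm.pzero hLm.pcon x hx u hu
      (by linear_combination -h0)
  have hfix : ∀ γ, den (Ri γ) x ≠ 0 ∧ mob (Ri γ) x = x := by
    intro γ
    obtain ⟨h1, h2⟩ := hSIN Γ s F h t0 G N R R' U P ν Ri Ri' hFu hFD ht hSq hLm x hx γ
    exact ⟨h1, hcon _ h2 _ hx⟩
  obtain ⟨hEq, -, -, -⟩ := hEQP Γ s F h t0 G N R R' U P ν Ri Ri' hFu ht hSq hLm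
  obtain ⟨-, hFj, -⟩ := hFUX Γ s hFu
  have hgd : DifferentiableOn ℂ (fun u => P u / (1 - x * P u)) D :=
    hLm.phol.div ((differentiableOn_const (1 : ℂ)).sub
      ((differentiableOn_const x).mul hLm.phol)) hne
  have hgi : InjOn (fun u => P u / (1 - x * P u)) D := by
    intro u hu v hv huv
    have h1 : P u / (1 - x * P u) = P v / (1 - x * P v) := huv
    rw [div_eq_div_iff (hne u hu) (hne v hv)] at h1
    exact hLm.pinj hu hv (by linear_combination h1)
  have hD : IsOpen D := Metric.isOpen_ball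
  refine hNGF Γ (js s) hFj (fun u => P u / (1 - x * P u)) hgd
    (fun z hz => Pool.TU.X5.deriv_ne_zero_of_injOn hD hgd hgi hz) ?_
  intro γ
  refine ⟨(Ri γ 1 1 + Ri γ 1 0 * x) / (Ri γ 0 0 - Ri γ 1 0 * x),
    Ri γ 1 0 / (Ri γ 0 0 - Ri γ 1 0 * x), ?_⟩
  intro u hu
  obtain ⟨hd, hP⟩ := hEq γ u hu
  obtain ⟨hdx, hmx⟩ := hfix γ
  have hdet : Ri γ 0 0 * Ri γ 1 1 - Ri γ 0 1 * Ri γ 1 0 = 1 := by
    have := (Ri γ).det_coe
    rw [Matrix.det_fin_two] at this
    exact this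
  have hfx : Ri γ 0 0 * x + Ri γ 0 1 = x * (Ri γ 1 0 * x + Ri γ 1 1) := by
    have h1 : (Ri γ 0 0 * x + Ri γ 0 1) / den (Ri γ) x = x := hmx
    rw [div_eq_iff hdx] at h1
    exact h1
  have hq : Ri γ 0 1 * P u + Ri γ 0 0 ≠ 0 := hd
  have hP' : P (mob (js s γ) u) =
      (Ri γ 1 1 * P u + Ri γ 1 0) / (Ri γ 0 1 * P u + Ri γ 0 0) := hP
  show P (mob (js s γ) u) / (1 - x * P (mob (js s γ) u)) = _ * (P u / (1 - x * P u)) + _
  rw [hP']
  exact ss2Alg _ _ _ _ x (P u) hdet hfx hq (hne u hu)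

end Pool.Agent.Helper41.QE
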